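import Mathlib

set_option autoImplicit false

namespace Pool.Agent.Results.MP_5c5acc_nt.Lacunary

/-- There are `d, x, y` with `d y^2` strictly between `b^2` and `(b+1)^2` and `d x^2` strictly
between `a b^2` and `a (b+1)^2`. -/
def Hit (a b : ℕ) : Prop :=
  ∃ d x y : ℕ, b ^ 2 < d * y ^ 2 ∧ d * y ^ 2 < (b + 1) ^ 2 ∧
    a * b ^ 2 < d * x ^ 2 ∧ d * x ^ 2 < a * (b + 1) ^ 2

/-- window of length more than one, first sign -/
lemma hit_pos {a b x y : ℕ} (hy : 0 < y) (h1 : a * y ^ 2 < x ^ 2)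
    (h2 : x ^ 2 * (b ^ 2 + y ^ 2) < a * (b + 1) ^ 2 * y ^ 2) : Hit a b := by
  have hy2 : 0 < y ^ 2 := by positivity
  obtain ⟨d, hd⟩ : ∃ d, d = b ^ 2 / y ^ 2 + 1 := ⟨_, rfl⟩
  have hA : b ^ 2 < d * y ^ 2 := by
    rw [hd]
    exact Nat.lt_mul_of_div_lt (Nat.lt_succ_self _) hy2
  have hB : d * y ^ 2 ≤ b ^ 2 + y ^ 2 := by
    have := Nat.div_mul_le_self (b ^ 2) (y ^ 2)
    rw [hd]; nlinarith
  have hC : d * x ^ 2 < a * (b + 1) ^ 2 := by
    have h3 : (d * x ^ 2) * y ^ 2 < (a * (b + 1) ^ 2) * y ^ 2 := by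
      calc (d * x ^ 2) * y ^ 2 = x ^ 2 * (d * y ^ 2) := by ring
        _ ≤ x ^ 2 * (b ^ 2 + y ^ 2) := Nat.mul_le_mul_left _ hB
        _ < _ := h2
    exact lt_of_mul_lt_mul_right h3 (Nat.zero_le _)
  have ha : 0 < a := by
    rcases Nat.eq_zero_or_pos a with h | h
    · subst h; simp at hC
    · exact h
  have hd0 : 0 < d := by rw [hd]; exact Nat.succ_pos _
  refine ⟨d, x, y, hA, ?_, ?_, hC⟩
  · have h4 : a * (d * y ^ 2) < a * (b + 1) ^ 2 := by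
      calc a * (d * y ^ 2) = d * (a * y ^ 2) := by ring
        _ ≤ d * x ^ 2 := Nat.mul_le_mul_left _ h1.le
        _ < _ := hC
    exact lt_of_mul_lt_mul_left h4 (Nat.zero_le _)
  · calc a * b ^ 2 < a * (d * y ^ 2) := Nat.mul_lt_mul_of_pos_left hA ha
      _ = d * (a * y ^ 2) := by ring
      _ ≤ d * x ^ 2 := Nat.mul_le_mul_left _ h1.le

/-- window of length more than one, second sign -/
lemma hit_neg {a b x y : ℕ} (hx : 0 < x) (h1 : x ^ 2 < a * y ^ 2)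
    (h2 : (a * b ^ 2 + x ^ 2) * y ^ 2 < x ^ 2 * (b + 1) ^ 2) : Hit a b := by
  have hx2 : 0 < x ^ 2 := by positivity
  obtain ⟨d, hd⟩ : ∃ d, d = a * b ^ 2 / x ^ 2 + 1 := ⟨_, rfl⟩
  have hA : a * b ^ 2 < d * x ^ 2 := by
    rw [hd]
    exact Nat.lt_mul_of_div_lt (Nat.lt_succ_self _) hx2
  have hB : d * x ^ 2 ≤ a * b ^ 2 + x ^ 2 := by
    have := Nat.div_mul_le_self (a * b ^ 2) (x ^ 2)
    rw [hd]; nlinarith
  have hC : d * y ^ 2 < (b + 1) ^ 2 := by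
    have h3 : (d * y ^ 2) * x ^ 2 < (b + 1) ^ 2 * x ^ 2 := by
      calc (d * y ^ 2) * x ^ 2 = (d * x ^ 2) * y ^ 2 := by ring
        _ ≤ (a * b ^ 2 + x ^ 2) * y ^ 2 := Nat.mul_le_mul_right _ hB
        _ < x ^ 2 * (b + 1) ^ 2 := h2
        _ = _ := by ring
    exact lt_of_mul_lt_mul_right h3 (Nat.zero_le _)
  have ha : 0 < a := by
    rcases Nat.eq_zero_or_pos a with h | h
    · subst h; simp at h1
    · exact h
  have hd0 : 0 < d := by rw [hd]; exact Nat.succ_pos _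
  refine ⟨d, x, y, ?_, hC, hA, ?_⟩
  · have h4 : a * b ^ 2 < a * (d * y ^ 2) := by
      calc a * b ^ 2 < d * x ^ 2 := hA
        _ ≤ d * (a * y ^ 2) := Nat.mul_le_mul_left _ h1.le
        _ = _ := by ring
    exact lt_of_mul_lt_mul_left h4 (Nat.zero_le _)
  · calc d * x ^ 2 ≤ d * (a * y ^ 2) := Nat.mul_le_mul_left _ h1.le
      _ = a * (d * y ^ 2) := by ring
      _ < a * (b + 1) ^ 2 := Nat.mul_lt_mul_of_pos_left hC ha

/-- the small case: a divisor class `d < a` with a multiple `d y^2` strictly between the squares -/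
lemma hit_small {a b d y : ℕ} (hd : 0 < d) (hda : d < a)
    (h1 : b ^ 2 < d * y ^ 2) (h2 : d * y ^ 2 < (b + 1) ^ 2) : Hit a b := by
  have hex : ∃ x : ℕ, a * b ^ 2 < d * x ^ 2 := by
    refine ⟨a * b + 1, ?_⟩
    have ha : 1 ≤ a := by omega
    calc a * b ^ 2 ≤ (a * b) ^ 2 := by
          rw [mul_pow]; exact Nat.mul_le_mul_right _ (by nlinarith)
      _ < (a * b + 1) ^ 2 := by nlinarith
      _ ≤ d * (a * b + 1) ^ 2 := Nat.le_mul_of_pos_left _ hd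
  classical
  obtain ⟨x, hx⟩ : ∃ x, x = Nat.find hex := ⟨_, rfl⟩
  have hx1 : a * b ^ 2 < d * x ^ 2 := by rw [hx]; exact Nat.find_spec hex
  have hx0 : 0 < x := by
    rcases Nat.eq_zero_or_pos x with h | h
    · rw [h] at hx1; simp at hx1
    · exact h
  obtain ⟨z, rfl⟩ : ∃ z, x = z + 1 := ⟨x - 1, by omega⟩
  have hz : d * z ^ 2 ≤ a * b ^ 2 := by
    have := Nat.find_min hex (m := z) (by rw [← hx]; omega)
    omega
  refine ⟨d, z + 1, y, h1, h2, hx1, ?_⟩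
  by_contra hcon
  push Not at hcon
  have h3 : (z * (b + 1)) ^ 2 * (d * a) ≤ ((z + 1) * b) ^ 2 * (d * a) := by
    calc (z * (b + 1)) ^ 2 * (d * a) = (d * z ^ 2) * (a * (b + 1) ^ 2) := by ring
      _ ≤ (a * b ^ 2) * (d * (z + 1) ^ 2) := Nat.mul_le_mul hz hcon
      _ = _ := by ring
  have hda0 : 0 < d * a := Nat.mul_pos hd (by omega)
  have h4 : (z * (b + 1)) ^ 2 ≤ ((z + 1) * b) ^ 2 := le_of_mul_le_mul_right h3 hda0
  have h5 : z * (b + 1) ≤ (z + 1) * b := by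
    exact (Nat.pow_le_pow_iff_left (by norm_num)).1 h4
  have h6 : z ≤ b := by nlinarith
  have h7 : d * (z + 1) ^ 2 ≤ d * (b + 1) ^ 2 :=
    Nat.mul_le_mul_left _ (Nat.pow_le_pow_left (by omega) 2)
  have h8 : d * (b + 1) ^ 2 < a * (b + 1) ^ 2 := Nat.mul_lt_mul_of_pos_right hda (by positivity)
  omega

/-- `a = 2` : the windows tile -/
lemma two_tile (b : ℕ) (hb : 1 ≤ b) : ∃ x y : ℤ, 0 < x ∧ 0 < y ∧
    ((x ^ 2 = 2 * y ^ 2 + 1 ∧ y * (2 * y - x) ≤ b ∧ (b : ℤ) ≤ y * (2 * y + x)) ∨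
     (x ^ 2 = 2 * y ^ 2 - 1 ∧ x * (x - y) ≤ b ∧ (b : ℤ) ≤ x * (x + y))) := by
  induction b, hb using Nat.le_induction with
  | base => exact ⟨1, 1, by norm_num, by norm_num, Or.inr (by norm_num)⟩
  | succ b hb ih =>
    obtain ⟨x, y, hx, hy, h | h⟩ := ih
    · obtain ⟨h1, h2, h3⟩ := h
      rcases lt_or_eq_of_le h3 with h4 | h4
      · exact ⟨x, y, hx, hy, Or.inl ⟨h1, by push_cast; linarith, by push_cast; linarith⟩⟩
      · refine ⟨x + 2 * y, x + y, by linarith, by linarith, Or.inr ⟨by linarith [h1], ?_, ?_⟩⟩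
        · push_cast; rw [h4]; nlinarith
        · push_cast; rw [h4]; nlinarith
    · obtain ⟨h1, h2, h3⟩ := h
      rcases lt_or_eq_of_le h3 with h4 | h4
      · exact ⟨x, y, hx, hy, Or.inr ⟨h1, by push_cast; linarith, by push_cast; linarith⟩⟩
      · refine ⟨x + 2 * y, x + y, by linarith, by linarith, Or.inl ⟨by linarith [h1], ?_, ?_⟩⟩
        · push_cast; rw [h4]; nlinarith
        · push_cast; rw [h4]; nlinarith


/-- integer form of `hit_pos` -/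
lemma hit_pos' {a b : ℕ} {x y : ℤ} (hx : 0 < x) (hy : 0 < y) (h1 : (a : ℤ) * y ^ 2 < x ^ 2)
    (h2 : x ^ 2 * ((b : ℤ) ^ 2 + y ^ 2) < a * (b + 1) ^ 2 * y ^ 2) : Hit a b := by
  lift x to ℕ using hx.le
  lift y to ℕ using hy.le
  refine hit_pos (a := a) (b := b) (x := x) (y := y) (by exact_mod_cast hy) (by exact_mod_cast h1)
    (by exact_mod_cast h2)

lemma hit_neg' {a b : ℕ} {x y : ℤ} (hx : 0 < x) (hy : 0 < y) (h1 : x ^ 2 < (a : ℤ) * y ^ 2)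
    (h2 : ((a : ℤ) * b ^ 2 + x ^ 2) * y ^ 2 < x ^ 2 * (b + 1) ^ 2) : Hit a b := by
  lift x to ℕ using hx.le
  lift y to ℕ using hy.le
  refine hit_neg (a := a) (b := b) (x := x) (y := y) (by exact_mod_cast hx) (by exact_mod_cast h1)
    (by exact_mod_cast h2)

lemma hit_two {b : ℕ} (hb : 1 ≤ b) (hex : ¬ ∃ c : ℕ, c ^ 2 + 1 = 2 * (2 * b + 1) ^ 2) :
    Hit 2 b := by
  obtain ⟨x, y, hx, hy, h | h⟩ := two_tile b hb
  · obtain ⟨h1, h2, h3⟩ := h
    have h2' : y * (2 * y - x) ≠ b := by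
      intro h4
      apply hex
      refine ⟨(x ^ 2 + 2 * y ^ 2 - 4 * x * y).natAbs, ?_⟩
      zify
      rw [sq_abs, ← h4, h1]
      nlinarith
    have h3' : (b : ℤ) ≠ y * (2 * y + x) := by
      intro h4
      apply hex
      refine ⟨(x ^ 2 + 2 * y ^ 2 + 4 * x * y).natAbs, ?_⟩
      zify
      rw [sq_abs, h4, h1]
      nlinarith
    have h4 : ((b : ℤ) - y * (2 * y - x)) * (y * (2 * y + x) - b) > 0 :=
      mul_pos (by have := lt_of_le_of_ne h2 h2'; linarith)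
        (by have := lt_of_le_of_ne h3 h3'; linarith)
    refine hit_pos' (x := x) (y := y) hx hy (by push_cast; linarith) ?_
    push_cast
    rw [h1]
    nlinarith
  · obtain ⟨h1, h2, h3⟩ := h
    have h2' : x * (x - y) ≠ b := by
      intro h4
      apply hex
      refine ⟨(x ^ 2 + 2 * y ^ 2 - 4 * x * y).natAbs, ?_⟩
      zify
      rw [sq_abs, ← h4]
      have h5 : 2 * y ^ 2 = x ^ 2 + 1 := by linarith
      nlinarith
    have h3' : (b : ℤ) ≠ x * (x + y) := by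
      intro h4
      apply hex
      refine ⟨(x ^ 2 + 2 * y ^ 2 + 4 * x * y).natAbs, ?_⟩
      zify
      rw [sq_abs, h4]
      have h5 : 2 * y ^ 2 = x ^ 2 + 1 := by linarith
      nlinarith
    have h4 : ((b : ℤ) - x * (x - y)) * (x * (x + y) - b) > 0 :=
      mul_pos (by have := lt_of_le_of_ne h2 h2'; linarith)
        (by have := lt_of_le_of_ne h3 h3'; linarith)
    refine hit_neg' (x := x) (y := y) hx hy (by push_cast; linarith) ?_
    push_cast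
    rw [h1]
    nlinarith

/-- `a = 3` : the windows cover -/
lemma three_cover (b : ℕ) (hb : 1 ≤ b) : ∃ x y : ℤ, 0 < x ∧ 0 ≤ y ∧ x ^ 2 = 3 * y ^ 2 + 1 ∧
    ((x * (x + y) < (b : ℤ) + 1 ∧ (b : ℤ) + 1 < (x + y) * (2 * x + 3 * y)) ∨
     (0 < y ∧ x * (x - y) ≤ (b : ℤ) + 1 ∧ (b : ℤ) + 1 ≤ x * (x + y))) := by
  induction b, hb using Nat.le_induction with
  | base => exact ⟨2, 1, by norm_num, by norm_num, by norm_num, Or.inr (by norm_num)⟩
  | succ b hb ih =>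
    obtain ⟨x, y, hx, hy, h1, h | h⟩ := ih
    · obtain ⟨h2, h3⟩ := h
      rcases lt_or_eq_of_le (show (b : ℤ) + 2 ≤ (x + y) * (2 * x + 3 * y) by linarith) with h4 | h4
      · exact ⟨x, y, hx, hy, h1, Or.inl ⟨by push_cast; linarith, by push_cast; linarith⟩⟩
      · refine ⟨2 * x + 3 * y, x + 2 * y, by linarith, by linarith, by nlinarith,
          Or.inr ⟨by linarith, ?_, ?_⟩⟩
        · push_cast; nlinarith
        · push_cast; nlinarith
    · obtain ⟨h0, h2, h3⟩ := h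
      rcases lt_or_eq_of_le h3 with h4 | h4
      · exact ⟨x, y, hx, hy, h1, Or.inr ⟨h0, by push_cast; linarith, by push_cast; linarith⟩⟩
      · refine ⟨x, y, hx, hy, h1, Or.inl ⟨by push_cast; linarith, ?_⟩⟩
        push_cast
        have hxy : 0 < x * y := mul_pos hx h0
        have hyy : 0 < y * y := mul_pos h0 h0
        nlinarith

lemma hit_three {b : ℕ} (hb : 1 ≤ b) : Hit 3 b := by
  obtain ⟨x, y, hx, hy, h1, h | h⟩ := three_cover b hb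
  · obtain ⟨h2, h3⟩ := h
    have h4 : ((b : ℤ) + 1 - x * (x + y)) * ((x + y) * (2 * x + 3 * y) - (b + 1)) > 0 :=
      mul_pos (by linarith) (by linarith)
    refine hit_neg' (x := x + 3 * y) (y := x + y) (by linarith) (by linarith)
      (by push_cast; nlinarith) ?_
    push_cast
    have h5 : (x + 3 * y) ^ 2 = 3 * (x + y) ^ 2 - 2 := by linarith
    rw [h5]
    nlinarith
  · obtain ⟨h0, h2, h3⟩ := h
    have h4 : ((b : ℤ) + 1 - x * (x - y)) * (x * (x + y) - (b + 1)) ≥ 0 :=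
      mul_nonneg (by linarith) (by linarith)
    have hxy : 0 < x ^ 2 * y ^ 2 := by positivity
    refine hit_pos' (x := x) (y := y) hx h0 (by push_cast; linarith) ?_
    push_cast
    rw [h1]
    rw [h1] at hxy
    nlinarith


lemma polyA (b W : ℝ) (hb : 23 ≤ b) (h1 : b ≤ 4 * W) (h2 : 4 * W ≤ 5 * b) :
    16 * ((b + 1) ^ 2 - W) ^ 2 ≤ 25 * b * W * (2 * b + 1 - W) ^ 2 := by
  have hb0 : 0 < b := by linarith
  obtain ⟨w, hw⟩ : ∃ w, W = w * b := ⟨W / b, by field_simp⟩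
  subst hw
  have hw1 : 1 / 4 ≤ w := by
    by_contra h; push Not at h; nlinarith
  have hw2 : w ≤ 5 / 4 := by
    by_contra h; push Not at h; nlinarith
  -- (b+1)^2 - W ≤ b^2 + (2-w+1/23) b ; 2b+1-W ≥ (2-w) b + 1
  have e1 : (b + 1) ^ 2 - w * b ≤ b * (b + 2 - w + 1 / 23) := by nlinarith
  have e0 : 0 ≤ (b + 1) ^ 2 - w * b := by nlinarith
  have e2 : ((b + 1) ^ 2 - w * b) ^ 2 ≤ (b * (b + 2 - w + 1 / 23)) ^ 2 := by
    apply pow_le_pow_left₀ e0 e1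
  have e3 : 16 * (b + 2 - w + 1 / 23) ^ 2 ≤ 25 * w * ((2 - w) * b + 1) ^ 2 := by
    nlinarith [mul_nonneg (mul_nonneg (sub_nonneg.2 hw1) (sub_nonneg.2 hw2)) hb0.le, mul_nonneg (mul_nonneg (sub_nonneg.2 hw1) (sub_nonneg.2 hw2)) (sq_nonneg b), mul_nonneg (sub_nonneg.2 hw1) (sub_nonneg.2 hw2), mul_nonneg (sub_nonneg.2 hb) hb0.le, mul_nonneg (mul_nonneg (sub_nonneg.2 hb) hb0.le) (sub_nonneg.2 hw1)]
  calc 16 * ((b + 1) ^ 2 - w * b) ^ 2 ≤ 16 * (b * (b + 2 - w + 1 / 23)) ^ 2 := by linarith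
    _ = b ^ 2 * (16 * (b + 2 - w + 1 / 23) ^ 2) := by ring
    _ ≤ b ^ 2 * (25 * w * ((2 - w) * b + 1) ^ 2) := by
        apply mul_le_mul_of_nonneg_left e3 (by positivity)
    _ = _ := by ring

lemma polyA' (b W : ℝ) (hb : 23 ≤ b) (h1 : b ≤ 4 * W) (h2 : 4 * W ≤ 5 * b) :
    16 * (b + 1) * (b ^ 2 + W) ^ 2 ≤ 25 * b ^ 2 * W * (2 * b + 1 - W) ^ 2 := by
  have hb0 : 0 < b := by linarith
  obtain ⟨w, hw⟩ : ∃ w, W = w * b := ⟨W / b, by field_simp⟩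
  subst hw
  have hw1 : 1 / 4 ≤ w := by
    by_contra h; push Not at h; nlinarith
  have hw2 : w ≤ 5 / 4 := by
    by_contra h; push Not at h; nlinarith
  have e3 : 16 * (b + 1) * (b + w) ^ 2 ≤ 25 * b * w * ((2 - w) * b + 1) ^ 2 := by
    have f1 : 16 * (b + 1) ≤ 16 * (24 / 23) * b := by linarith
    have f2 : 16 * (24 / 23) * (b + w) ^ 2 ≤ 25 * w * ((2 - w) * b + 1) ^ 2 := by
      nlinarith [mul_nonneg (mul_nonneg (sub_nonneg.2 hw1) (sub_nonneg.2 hw2)) hb0.le, mul_nonneg (mul_nonneg (sub_nonneg.2 hw1) (sub_nonneg.2 hw2)) (sq_nonneg b), mul_nonneg (sub_nonneg.2 hw1) (sub_nonneg.2 hw2), mul_nonneg (sub_nonneg.2 hb) hb0.le, mul_nonneg (mul_nonneg (sub_nonneg.2 hb) hb0.le) (sub_nonneg.2 hw1), mul_nonneg (mul_nonneg (sub_nonneg.2 hb) hb0.le) (sub_nonneg.2 hw2)]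
    calc 16 * (b + 1) * (b + w) ^ 2 ≤ 16 * (24 / 23) * b * (b + w) ^ 2 := by
          apply mul_le_mul_of_nonneg_right f1 (by positivity)
      _ = b * (16 * (24 / 23) * (b + w) ^ 2) := by ring
      _ ≤ b * (25 * w * ((2 - w) * b + 1) ^ 2) := by
          apply mul_le_mul_of_nonneg_left f2 hb0.le
      _ = _ := by ring
  calc 16 * (b + 1) * (b ^ 2 + w * b) ^ 2 = b ^ 2 * (16 * (b + 1) * (b + w) ^ 2) := by ring
    _ ≤ b ^ 2 * (25 * b * w * ((2 - w) * b + 1) ^ 2) := by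
        apply mul_le_mul_of_nonneg_left e3 (by positivity)
    _ = _ := by ring

/-- `k = -κ`, `κ ≥ 2` -/
lemma large_neg {b W A κ : ℤ} (hb : 23 ≤ b) (hκ : 2 ≤ κ) (hW0 : 1 ≤ W) (hW : 4 * W ≤ 5 * b)
    (hA : 5 * W ≤ A) (hD : 5 * b * κ ^ 2 < 16 * A) :
    κ * ((b + 1) ^ 2 - W) < A * (2 * b + 1 - W) := by
  by_contra hcon
  push Not at hcon
  have hpos : 0 < 2 * b + 1 - W := by linarith
  rcases le_or_gt (4 * W) b with h | h
  · have h1 : 5 * b * κ ^ 2 * (2 * b + 1 - W) < 16 * A * (2 * b + 1 - W) :=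
      mul_lt_mul_of_pos_right hD hpos
    have h2 : κ * (5 * b * κ * (2 * b + 1 - W)) < κ * (16 * ((b + 1) ^ 2 - W)) := by nlinarith
    have h3 : 5 * b * κ * (2 * b + 1 - W) < 16 * ((b + 1) ^ 2 - W) :=
      lt_of_mul_lt_mul_left h2 (by linarith)
    have h4 : 5 * b * 2 * (2 * b + 1 - W) ≤ 5 * b * κ * (2 * b + 1 - W) := by
      apply mul_le_mul_of_nonneg_right _ hpos.le
      nlinarith
    nlinarith
  · have hp : 16 * ((b + 1) ^ 2 - W) ^ 2 ≤ 25 * b * W * (2 * b + 1 - W) ^ 2 := by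
      have := polyA (b : ℝ) (W : ℝ) (by exact_mod_cast hb) (by exact_mod_cast h.le)
        (by exact_mod_cast hW)
      exact_mod_cast this
    have hA0 : 0 < A := by linarith
    have h5 : (A * (2 * b + 1 - W)) ^ 2 ≤ (κ * ((b + 1) ^ 2 - W)) ^ 2 :=
      pow_le_pow_left₀ (by positivity) hcon 2
    have h6 : 5 * b * (A * (2 * b + 1 - W)) ^ 2 ≤ 16 * A * ((b + 1) ^ 2 - W) ^ 2 := by
      calc 5 * b * (A * (2 * b + 1 - W)) ^ 2 ≤ 5 * b * (κ * ((b + 1) ^ 2 - W)) ^ 2 :=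
            mul_le_mul_of_nonneg_left h5 (by linarith)
        _ = (5 * b * κ ^ 2) * ((b + 1) ^ 2 - W) ^ 2 := by ring
        _ ≤ 16 * A * ((b + 1) ^ 2 - W) ^ 2 := mul_le_mul_of_nonneg_right hD.le (sq_nonneg _)
    -- strictness
    have hne : 0 < ((b + 1) ^ 2 - W) ^ 2 := by
      have : 0 < (b + 1) ^ 2 - W := by nlinarith
      positivity
    have h6' : 5 * b * (A * (2 * b + 1 - W)) ^ 2 < 16 * A * ((b + 1) ^ 2 - W) ^ 2 := by
      calc 5 * b * (A * (2 * b + 1 - W)) ^ 2 ≤ 5 * b * (κ * ((b + 1) ^ 2 - W)) ^ 2 :=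
            mul_le_mul_of_nonneg_left h5 (by linarith)
        _ = (5 * b * κ ^ 2) * ((b + 1) ^ 2 - W) ^ 2 := by ring
        _ < 16 * A * ((b + 1) ^ 2 - W) ^ 2 := mul_lt_mul_of_pos_right hD hne
    have h7 : A * (5 * b * A * (2 * b + 1 - W) ^ 2) < A * (16 * ((b + 1) ^ 2 - W) ^ 2) := by
      nlinarith
    have h8 := lt_of_mul_lt_mul_left h7 hA0.le
    have h9 : 5 * b * (5 * W) * (2 * b + 1 - W) ^ 2 ≤ 5 * b * A * (2 * b + 1 - W) ^ 2 := by
      apply mul_le_mul_of_nonneg_right _ (sq_nonneg _)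
      apply mul_le_mul_of_nonneg_left hA (by linarith)
    linarith

/-- `k = κ`, `κ ≥ 2` -/
lemma large_pos {b W A κ : ℤ} (hb : 23 ≤ b) (hκ : 2 ≤ κ) (hW0 : 1 ≤ W) (hW : 4 * W ≤ 5 * b)
    (hA : 5 * W ≤ A) (hD : 5 * b * κ ^ 2 < 16 * A + 8 * κ) :
    κ * (b ^ 2 + W) < A * (2 * b + 1 - W) := by
  by_contra hcon
  push Not at hcon
  have hpos : 0 < 2 * b + 1 - W := by linarith
  have hA0 : 0 < A := by linarith
  rcases le_or_gt (4 * W) b with h | h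
  · have h1 : (5 * b * κ ^ 2 - 8 * κ) * (2 * b + 1 - W) < 16 * A * (2 * b + 1 - W) :=
      mul_lt_mul_of_pos_right (by linarith) hpos
    have h2 : κ * ((5 * b * κ - 8) * (2 * b + 1 - W)) < κ * (16 * (b ^ 2 + W)) := by nlinarith
    have h3 : (5 * b * κ - 8) * (2 * b + 1 - W) < 16 * (b ^ 2 + W) :=
      lt_of_mul_lt_mul_left h2 (by linarith)
    have h4 : (5 * b * 2 - 8) * (2 * b + 1 - W) ≤ (5 * b * κ - 8) * (2 * b + 1 - W) := by
      apply mul_le_mul_of_nonneg_right _ hpos.le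
      nlinarith
    nlinarith
  · have hp : 16 * (b + 1) * (b ^ 2 + W) ^ 2 ≤ 25 * b ^ 2 * W * (2 * b + 1 - W) ^ 2 := by
      have := polyA' (b : ℝ) (W : ℝ) (by exact_mod_cast hb) (by exact_mod_cast h.le)
        (by exact_mod_cast hW)
      exact_mod_cast this
    -- `b κ ≤ 2 A`
    have hk : b * κ ≤ 2 * A := by
      by_contra hk
      push Not at hk
      have h1 : 5 * b * κ ^ 2 < 8 * (b * κ) + 8 * κ := by linarith
      have h2 : κ * (5 * b * κ) < κ * (8 * b + 8) := by nlinarith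
      have h3 : 5 * b * κ < 8 * b + 8 := lt_of_mul_lt_mul_left h2 (by linarith)
      nlinarith
    have hD2 : 5 * b ^ 2 * κ ^ 2 < 16 * A * (b + 1) := by
      have : b * (5 * b * κ ^ 2) < b * (16 * A + 8 * κ) :=
        mul_lt_mul_of_pos_left hD (by linarith)
      nlinarith
    have h5 : (A * (2 * b + 1 - W)) ^ 2 ≤ (κ * (b ^ 2 + W)) ^ 2 :=
      pow_le_pow_left₀ (by positivity) hcon 2
    have hne : 0 < (b ^ 2 + W) ^ 2 := by
      have : 0 < b ^ 2 + W := by nlinarith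
      positivity
    have h6' : 5 * b ^ 2 * (A * (2 * b + 1 - W)) ^ 2 < 16 * A * (b + 1) * (b ^ 2 + W) ^ 2 := by
      calc 5 * b ^ 2 * (A * (2 * b + 1 - W)) ^ 2 ≤ 5 * b ^ 2 * (κ * (b ^ 2 + W)) ^ 2 :=
            mul_le_mul_of_nonneg_left h5 (by positivity)
        _ = (5 * b ^ 2 * κ ^ 2) * (b ^ 2 + W) ^ 2 := by ring
        _ < 16 * A * (b + 1) * (b ^ 2 + W) ^ 2 := mul_lt_mul_of_pos_right hD2 hne
    have h7 : A * (5 * b ^ 2 * A * (2 * b + 1 - W) ^ 2) < A * (16 * (b + 1) * (b ^ 2 + W) ^ 2) := by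
      nlinarith
    have h8 := lt_of_mul_lt_mul_left h7 hA0.le
    have h9 : 5 * b ^ 2 * (5 * W) * (2 * b + 1 - W) ^ 2 ≤ 5 * b ^ 2 * A * (2 * b + 1 - W) ^ 2 := by
      apply mul_le_mul_of_nonneg_right _ (sq_nonneg _)
      apply mul_le_mul_of_nonneg_left hA (by positivity)
    linarith


lemma unit_neg {a b : ℕ} {x y m : ℤ} (ha : 5 ≤ a) (hb : 23 ≤ b) (hx : 0 < x) (hy : 0 < y)
    (h1 : x ^ 2 = a * y ^ 2 - 1) (hW : 4 * y ^ 2 ≤ 5 * b) (hD : 5 * (b : ℤ) < 16 * (a * y ^ 2) - 8)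
    (hm : 0 < m) (hm1 : m ^ 2 < (a : ℤ) - 1) (hm2 : (a : ℤ) ≤ 5 * m ^ 2) : Hit a b := by
  by_cases hsc : ((a : ℤ) * b ^ 2 + x ^ 2) * y ^ 2 < x ^ 2 * (b + 1) ^ 2
  · exact hit_neg' hx hy (by linarith) hsc
  push Not at hsc
  have ha' : (5 : ℤ) ≤ a := by exact_mod_cast ha
  have hb' : (23 : ℤ) ≤ b := by exact_mod_cast hb
  obtain ⟨B, hB⟩ : ∃ B : ℤ, B = b := ⟨_, rfl⟩
  obtain ⟨α, hα⟩ : ∃ α : ℤ, α = a := ⟨_, rfl⟩
  rw [← hα] at ha' h1 hD hm1 hm2 hsc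
  rw [← hB] at hb' hW hD hsc
  obtain ⟨A, hA⟩ : ∃ A : ℤ, A = α * y ^ 2 := ⟨_, rfl⟩
  obtain ⟨W, hWd⟩ : ∃ W : ℤ, W = y ^ 2 := ⟨_, rfl⟩
  have hW1 : 1 ≤ W := by rw [hWd]; nlinarith
  have hAW : A = α * W := by rw [hA, hWd]
  have hA5 : 5 * W ≤ A := by rw [hAW]; nlinarith
  rw [← hA] at h1 hD
  rw [← hWd] at hW
  have hf : A * (2 * B + 1 - W) ≤ (B + 1) ^ 2 - W := by
    have e : (α * B ^ 2 + x ^ 2) * y ^ 2 = A * B ^ 2 + x ^ 2 * W := by rw [hA, hWd]; ring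
    rw [e, h1] at hsc
    nlinarith
  have hAB : A < B + 1 := by
    by_contra hc
    push Not at hc
    rcases le_or_gt W B with h | h
    · nlinarith
    · nlinarith
  have hg : x ^ 2 * ((α - 1) * W) ≤ (B + 1 - A) ^ 2 := by
    rw [h1]
    have : (α - 1) * W = A - W := by rw [hAW]; ring
    have e : (B + 1 - A) ^ 2 - (A - 1) * (A - W) = ((B + 1) ^ 2 - W) - A * (2 * B + 1 - W) := by ring
    rw [this]; linarith
  obtain ⟨S, hS⟩ : ∃ S : ℤ, S = m * x * y := ⟨_, rfl⟩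
  have hS0 : 0 < S := by rw [hS]; positivity
  have hS2 : S ^ 2 = m ^ 2 * x ^ 2 * W := by rw [hS, hWd]; ring
  have hx2 : 0 < x ^ 2 * W := by positivity
  have hSlt : S ^ 2 < (B + 1 - A) ^ 2 := by
    have : m ^ 2 * (x ^ 2 * W) < (α - 1) * (x ^ 2 * W) := mul_lt_mul_of_pos_right hm1 hx2
    calc S ^ 2 = m ^ 2 * (x ^ 2 * W) := by rw [hS2]; ring
      _ < (α - 1) * (x ^ 2 * W) := this
      _ = x ^ 2 * ((α - 1) * W) := by ring
      _ ≤ _ := hg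
  have hSl : S < B + 1 - A := lt_of_pow_lt_pow_left₀ 2 (by linarith) hSlt
  have hA8 : 8 ≤ A := by linarith
  have hSlow : 5 * A ≤ 12 * S := by
    by_contra hc
    push Not at hc
    have e1 : (12 * S) ^ 2 < (5 * A) ^ 2 := pow_lt_pow_left₀ hc (by linarith) (by norm_num)
    have e2 : A * x ^ 2 ≤ 5 * S ^ 2 := by
      calc A * x ^ 2 = α * (x ^ 2 * W) := by rw [hAW]; ring
        _ ≤ 5 * m ^ 2 * (x ^ 2 * W) := mul_le_mul_of_nonneg_right hm2 hx2.le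
        _ = 5 * S ^ 2 := by rw [hS2]; ring
    have e3 : 0 ≤ A * (A - 8) := mul_nonneg (by linarith) (by linarith)
    rw [h1] at e2
    nlinarith only [e1, e2, e3]
  have hE1 : 0 < B - x * (x + m * y) := by
    have : x * (x + m * y) = A - 1 + S := by rw [hS, ← h1]; ring
    rw [this]; linarith
  have hU : (x + m * y) * ((α + m ^ 2) * x + 2 * α * m * y)
      = (α + m ^ 2) * (A - 1) + (3 * α + m ^ 2) * S + 2 * m ^ 2 * A := by
    rw [← h1, hS, hA]; ring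
  have hE2 : 0 < (x + m * y) * ((α + m ^ 2) * x + 2 * α * m * y) - (α - m ^ 2) * B := by
    rw [hU]
    have g1 : 0 ≤ (3 * α + m ^ 2) * (12 * S - 5 * A) := mul_nonneg (by positivity) (by linarith)
    have g2 : 0 ≤ (α - m ^ 2) * (16 * A - 9 - 5 * B) := mul_nonneg (by linarith) (by linarith)
    have g3 : 0 ≤ (A - 8) * (397 * m ^ 2 - 57 * α) := mul_nonneg (by linarith) (by linarith)
    nlinarith only [g1, g2, g3, hm1, hm2, ha']
  have hmain := mul_pos hE1 hE2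
  have hx1 : 0 < m * x + α * y := by positivity
  have hy1 : 0 < x + m * y := by positivity
  have hk : (m * x + α * y) ^ 2 = α * (x + m * y) ^ 2 + (α - m ^ 2) := by
    have : (m * x + α * y) ^ 2 - α * (x + m * y) ^ 2 = (m ^ 2 - α) * (x ^ 2 - α * y ^ 2) := by ring
    rw [h1, ← hA] at this
    linarith
  refine hit_pos' (x := m * x + α * y) (y := x + m * y) hx1 hy1 ?_ ?_
  · rw [← hα, hk]; linarith
  · rw [← hα, ← hB, hk]
    have key : (α * (x + m * y) ^ 2 + (α - m ^ 2)) * (B ^ 2 + (x + m * y) ^ 2)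
        - α * (B + 1) ^ 2 * (x + m * y) ^ 2
        = -((B - x * (x + m * y)) *
          ((x + m * y) * ((α + m ^ 2) * x + 2 * α * m * y) - (α - m ^ 2) * B)) := by
      have hx' : α * y ^ 2 = x ^ 2 + 1 := by rw [← hA]; linarith
      linear_combination (m ^ 2 * (x + m * y) ^ 2) * hx'
    linarith

lemma unit_pos {a b : ℕ} {x y m : ℤ} (ha : 5 ≤ a) (hb : 23 ≤ b) (hx : 0 < x) (hy : 0 < y)
    (h1 : x ^ 2 = a * y ^ 2 + 1) (hW : 4 * y ^ 2 ≤ 5 * b) (hD : 5 * (b : ℤ) < 16 * (a * y ^ 2) + 8)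
    (hm : 0 < m) (hm1 : m ^ 2 < (a : ℤ) - 1) (hm2 : (a : ℤ) ≤ 5 * m ^ 2) : Hit a b := by
  by_cases hsc : x ^ 2 * ((b : ℤ) ^ 2 + y ^ 2) < a * (b + 1) ^ 2 * y ^ 2
  · exact hit_pos' hx hy (by linarith) hsc
  push Not at hsc
  have ha' : (5 : ℤ) ≤ a := by exact_mod_cast ha
  have hb' : (23 : ℤ) ≤ b := by exact_mod_cast hb
  obtain ⟨B, hB⟩ : ∃ B : ℤ, B = b := ⟨_, rfl⟩
  obtain ⟨α, hα⟩ : ∃ α : ℤ, α = a := ⟨_, rfl⟩
  rw [← hα] at ha' h1 hD hm1 hm2 hsc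
  rw [← hB] at hb' hW hD hsc
  obtain ⟨A, hA⟩ : ∃ A : ℤ, A = α * y ^ 2 := ⟨_, rfl⟩
  obtain ⟨W, hWd⟩ : ∃ W : ℤ, W = y ^ 2 := ⟨_, rfl⟩
  have hW1 : 1 ≤ W := by rw [hWd]; nlinarith
  have hAW : A = α * W := by rw [hA, hWd]
  have hA5 : 5 * W ≤ A := by rw [hAW]; nlinarith
  rw [← hA] at h1 hD
  rw [← hWd] at hW
  have hf : A * (2 * B + 1 - W) ≤ B ^ 2 + W := by
    have e : α * (B + 1) ^ 2 * y ^ 2 = A * (B + 1) ^ 2 := by rw [hA]; ring
    rw [e, h1, ← hWd] at hsc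
    nlinarith
  have hAB : A < B := by
    by_contra hc
    push Not at hc
    rcases lt_or_ge W B with h | h
    · nlinarith
    · nlinarith
  have hg : x ^ 2 * ((α - 1) * W) ≤ (B - A) ^ 2 := by
    rw [h1]
    have : (α - 1) * W = A - W := by rw [hAW]; ring
    have e : (B - A) ^ 2 - (A + 1) * (A - W) = (B ^ 2 + W) - A * (2 * B + 1 - W) := by ring
    rw [this]; linarith
  obtain ⟨S, hS⟩ : ∃ S : ℤ, S = m * x * y := ⟨_, rfl⟩
  have hS0 : 0 < S := by rw [hS]; positivity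
  have hS2 : S ^ 2 = m ^ 2 * x ^ 2 * W := by rw [hS, hWd]; ring
  have hx2 : 0 < x ^ 2 * W := by positivity
  have hSlt : S ^ 2 < (B - A) ^ 2 := by
    have : m ^ 2 * (x ^ 2 * W) < (α - 1) * (x ^ 2 * W) := mul_lt_mul_of_pos_right hm1 hx2
    calc S ^ 2 = m ^ 2 * (x ^ 2 * W) := by rw [hS2]; ring
      _ < (α - 1) * (x ^ 2 * W) := this
      _ = x ^ 2 * ((α - 1) * W) := by ring
      _ ≤ _ := hg
  have hSl : S < B - A := lt_of_pow_lt_pow_left₀ 2 (by linarith) hSlt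
  have hA8 : 7 ≤ A := by linarith
  have hSlow : 5 * A ≤ 12 * S := by
    by_contra hc
    push Not at hc
    have e1 : (12 * S) ^ 2 < (5 * A) ^ 2 := pow_lt_pow_left₀ hc (by linarith) (by norm_num)
    have e2 : A * x ^ 2 ≤ 5 * S ^ 2 := by
      calc A * x ^ 2 = α * (x ^ 2 * W) := by rw [hAW]; ring
        _ ≤ 5 * m ^ 2 * (x ^ 2 * W) := mul_le_mul_of_nonneg_right hm2 hx2.le
        _ = 5 * S ^ 2 := by rw [hS2]; ring
    have e3 : 0 ≤ A * (A - 7) := mul_nonneg (by linarith) (by linarith)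
    rw [h1] at e2
    nlinarith only [e1, e2, e3, hA8]
  have hE1 : 0 < (B + 1) - x * (x + m * y) := by
    have : x * (x + m * y) = A + 1 + S := by rw [hS, ← h1]; ring
    rw [this]; linarith
  have hU : (x + m * y) * ((α + m ^ 2) * x + 2 * α * m * y)
      = (α + m ^ 2) * (A + 1) + (3 * α + m ^ 2) * S + 2 * m ^ 2 * A := by
    rw [← h1, hS, hA]; ring
  have hE2 : 0 < (x + m * y) * ((α + m ^ 2) * x + 2 * α * m * y) - (α - m ^ 2) * (B + 1) := by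
    rw [hU]
    have g1 : 0 ≤ (3 * α + m ^ 2) * (12 * S - 5 * A) := mul_nonneg (by positivity) (by linarith)
    have g2 : 0 ≤ (α - m ^ 2) * (16 * A + 12 - 5 * (B + 1)) := mul_nonneg (by linarith) (by linarith)
    have g3 : 0 ≤ (A - 7) * (397 * m ^ 2 - 57 * α) := mul_nonneg (by linarith) (by linarith)
    nlinarith only [g1, g2, g3, hm1, hm2, ha']
  have hmain := mul_pos hE1 hE2
  have hx1 : 0 < m * x + α * y := by positivity
  have hy1 : 0 < x + m * y := by positivity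
  have hk : (m * x + α * y) ^ 2 = α * (x + m * y) ^ 2 - (α - m ^ 2) := by
    have : (m * x + α * y) ^ 2 - α * (x + m * y) ^ 2 = (m ^ 2 - α) * (x ^ 2 - α * y ^ 2) := by ring
    rw [h1, ← hA] at this
    linarith
  refine hit_neg' (x := m * x + α * y) (y := x + m * y) hx1 hy1 ?_ ?_
  · rw [← hα, hk]; linarith
  · rw [← hα, ← hB, hk]
    have key : (α * B ^ 2 + (α * (x + m * y) ^ 2 - (α - m ^ 2))) * (x + m * y) ^ 2
        - (α * (x + m * y) ^ 2 - (α - m ^ 2)) * (B + 1) ^ 2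
        = -(((B + 1) - x * (x + m * y)) *
          ((x + m * y) * ((α + m ^ 2) * x + 2 * α * m * y) - (α - m ^ 2) * (B + 1))) := by
      have hx' : α * y ^ 2 = x ^ 2 - 1 := by rw [← hA]; linarith
      linear_combination (m ^ 2 * (x + m * y) ^ 2) * hx'
    linarith


/-- Dirichlet approximation in the integral form used below. -/
lemma dirichlet {a b : ℕ} (ha : 5 ≤ a) (hb : 1 ≤ b) : ∃ x y : ℤ, 0 < x ∧ 0 < y ∧
    4 * y ^ 2 ≤ 5 * (b : ℤ) ∧
    5 * (b : ℤ) * (x ^ 2 - a * y ^ 2) ^ 2 ≤ 8 * x ^ 2 + 8 * (a * y ^ 2) ∧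
    (x ^ 2 - a * y ^ 2 ≠ 0 →
      5 * (b : ℤ) * (x ^ 2 - a * y ^ 2) ^ 2 < 8 * x ^ 2 + 8 * (a * y ^ 2)) := by
  obtain ⟨M, hM⟩ : ∃ M : ℕ, M = Nat.sqrt (5 * b / 4) := ⟨_, rfl⟩
  have hM1 : 4 * M ^ 2 ≤ 5 * b := by
    have h1 : M * M ≤ 5 * b / 4 := by rw [hM]; exact Nat.sqrt_le _
    have h2 : 5 * b / 4 * 4 ≤ 5 * b := Nat.div_mul_le_self _ _
    nlinarith
  have hM2 : 5 * b < 4 * (M + 1) ^ 2 := by
    have h1 : 5 * b / 4 < (M + 1) * (M + 1) := by rw [hM]; exact Nat.lt_succ_sqrt _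
    have h2 : 5 * b < 5 * b / 4 * 4 + 4 := by omega
    nlinarith
  have hM0 : 0 < M := by
    by_contra h
    have : M = 0 := by omega
    subst this
    omega
  obtain ⟨x, y, hy, hyM, habs⟩ := Real.exists_int_int_abs_mul_sub_le (√(a : ℝ)) hM0
  have haR : (5 : ℝ) ≤ a := by exact_mod_cast ha
  have hs0 : 0 ≤ √(a : ℝ) := Real.sqrt_nonneg _
  have hs2 : √(a : ℝ) ^ 2 = a := Real.sq_sqrt (by linarith)
  have hs : 2 ≤ √(a : ℝ) := by nlinarith
  have hyR : (1 : ℝ) ≤ y := by exact_mod_cast hy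
  have hMR : (1 : ℝ) ≤ M := by exact_mod_cast hM0
  have h1M : 1 / ((M : ℝ) + 1) ≤ 1 / 2 := by
    apply one_div_le_one_div_of_le <;> linarith
  have hx : 0 < x := by
    have h1 := (abs_le.1 (habs.trans h1M)).2
    have h2 : 2 ≤ (y : ℝ) * √(a : ℝ) := by nlinarith
    have h3 : (0 : ℝ) < x := by linarith
    exact_mod_cast h3
  have hxR : (0 : ℝ) < x := by exact_mod_cast hx
  obtain ⟨T, hT⟩ : ∃ T : ℝ, T = x + y * √(a : ℝ) := ⟨_, rfl⟩
  have hT0 : 0 < T := by rw [hT]; positivity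
  have hkT : |((x : ℝ) ^ 2 - a * y ^ 2)| * (M + 1) ≤ T := by
    have e : (x : ℝ) ^ 2 - a * y ^ 2 = -((y * √(a : ℝ) - x) * T) := by
      rw [hT]; nlinarith [hs2]
    rw [e, abs_neg, abs_mul, abs_of_pos hT0]
    have hM1' : (0 : ℝ) < M + 1 := by linarith
    calc |y * √(a : ℝ) - x| * T * (M + 1) ≤ (1 / (M + 1)) * T * (M + 1) := by
          apply mul_le_mul_of_nonneg_right _ hM1'.le
          exact mul_le_mul_of_nonneg_right habs hT0.le
      _ = T := by field_simp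
  have hT2 : T ^ 2 ≤ 2 * x ^ 2 + 2 * (a * y ^ 2) := by
    have e : 2 * (x : ℝ) ^ 2 + 2 * (a * y ^ 2) - T ^ 2 = (x - y * √(a : ℝ)) ^ 2 := by
      rw [hT]; nlinarith [hs2]
    nlinarith [sq_nonneg ((x : ℝ) - y * √(a : ℝ))]
  have hkey : ((x : ℝ) ^ 2 - a * y ^ 2) ^ 2 * (M + 1) ^ 2 ≤ 2 * x ^ 2 + 2 * (a * y ^ 2) := by
    calc ((x : ℝ) ^ 2 - a * y ^ 2) ^ 2 * (M + 1) ^ 2
        = (|((x : ℝ) ^ 2 - a * y ^ 2)| * (M + 1)) ^ 2 := by rw [mul_pow, sq_abs]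
      _ ≤ T ^ 2 := pow_le_pow_left₀ (by positivity) hkT 2
      _ ≤ _ := hT2
  have hkeyZ : (x ^ 2 - a * y ^ 2) ^ 2 * ((M : ℤ) + 1) ^ 2 ≤ 2 * x ^ 2 + 2 * (a * y ^ 2) := by
    exact_mod_cast hkey
  have hM2Z : 5 * (b : ℤ) < 4 * ((M : ℤ) + 1) ^ 2 := by exact_mod_cast hM2
  have hM1Z : 4 * (M : ℤ) ^ 2 ≤ 5 * b := by exact_mod_cast hM1
  refine ⟨x, y, hx, hy, ?_, ?_, ?_⟩
  · have : y ^ 2 ≤ (M : ℤ) ^ 2 := pow_le_pow_left₀ hy.le hyM 2
    linarith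
  · have : 5 * (b : ℤ) * (x ^ 2 - a * y ^ 2) ^ 2
        ≤ 4 * ((M : ℤ) + 1) ^ 2 * (x ^ 2 - a * y ^ 2) ^ 2 :=
      mul_le_mul_of_nonneg_right hM2Z.le (sq_nonneg _)
    linarith
  · intro hne
    have h0 : 0 < (x ^ 2 - a * y ^ 2) ^ 2 := by positivity
    have : 5 * (b : ℤ) * (x ^ 2 - a * y ^ 2) ^ 2
        < 4 * ((M : ℤ) + 1) ^ 2 * (x ^ 2 - a * y ^ 2) ^ 2 :=
      mul_lt_mul_of_pos_right hM2Z h0
    linarith

lemma exists_m {a : ℕ} (ha : 5 ≤ a) :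
    ∃ m : ℤ, 0 < m ∧ m ^ 2 < (a : ℤ) - 1 ∧ (a : ℤ) ≤ 5 * m ^ 2 := by
  obtain ⟨m, hm⟩ : ∃ m : ℕ, m = Nat.sqrt (a - 2) := ⟨_, rfl⟩
  have h1 : m * m ≤ a - 2 := by rw [hm]; exact Nat.sqrt_le _
  have h2 : a - 2 < (m + 1) * (m + 1) := by rw [hm]; exact Nat.lt_succ_sqrt _
  have h3 : 0 < m := by
    by_contra h
    have : m = 0 := by omega
    subst this
    omega
  refine ⟨m, by exact_mod_cast h3, ?_, ?_⟩
  · have : m * m + 2 ≤ a := by omega
    have : (m : ℤ) * m + 2 ≤ a := by exact_mod_cast this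
    nlinarith
  · have : a < (m + 1) * (m + 1) + 2 := by omega
    have h4 : (a : ℤ) < (m + 1) * (m + 1) + 2 := by exact_mod_cast this
    have h5 : (1 : ℤ) ≤ m := by exact_mod_cast h3
    nlinarith

lemma hit_large {a b : ℕ} (ha : 5 ≤ a) (hsq : ¬ IsSquare a) (hb : 23 ≤ b) : Hit a b := by
  obtain ⟨x, y, hx, hy, hW, -, hD⟩ := dirichlet (a := a) (b := b) ha (by omega)
  have ha' : (5 : ℤ) ≤ a := by exact_mod_cast ha
  have hb' : (23 : ℤ) ≤ b := by exact_mod_cast hb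
  have hne : x ^ 2 - a * y ^ 2 ≠ 0 := by
    intro h
    apply hsq
    have h1 : ((y : ℤ) ^ 2) ∣ x ^ 2 := ⟨a, by linarith⟩
    have h2 : y ∣ x := (Int.pow_dvd_pow_iff (by norm_num)).1 h1
    obtain ⟨c, hc⟩ := h2
    have hy2 : (y : ℤ) ^ 2 ≠ 0 := by positivity
    have h3 : (a : ℤ) = c * c := by
      have : (y : ℤ) ^ 2 * a = y ^ 2 * (c * c) := by
        rw [hc] at h; linarith
      exact mul_left_cancel₀ hy2 this
    refine ⟨c.natAbs, ?_⟩
    zify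
    rw [h3, abs_mul_abs_self]
  have hD' := hD hne
  have hy1 : 1 ≤ y ^ 2 := by nlinarith
  have hA5 : 5 * y ^ 2 ≤ a * y ^ 2 := mul_le_mul_of_nonneg_right ha' (by positivity)
  obtain ⟨m, hm, hm1, hm2⟩ := exists_m ha
  rcases lt_or_gt_of_ne hne with hneg | hpos
  · obtain ⟨κ, hκ⟩ : ∃ κ : ℤ, κ = a * y ^ 2 - x ^ 2 := ⟨_, rfl⟩
    have hx2 : x ^ 2 = a * y ^ 2 - κ := by linarith
    have hκ0 : 1 ≤ κ := by linarith
    have hD2 : 5 * (b : ℤ) * κ ^ 2 < 16 * (a * y ^ 2) - 8 * κ := by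
      rw [hx2] at hD'
      have e : (a * y ^ 2 - κ - a * y ^ 2) ^ 2 = κ ^ 2 := by ring
      rw [e] at hD'
      linarith
    rcases eq_or_lt_of_le hκ0 with h1 | h2
    · rw [← h1] at hx2 hD2
      exact unit_neg ha hb hx hy hx2 hW (by linarith) hm hm1 hm2
    · have hl := large_neg (b := b) (W := y ^ 2) (A := a * y ^ 2) (κ := κ) hb' (by linarith) hy1 hW
        hA5 (by linarith)
      refine hit_neg' hx hy (by linarith) ?_
      have e : (((a : ℤ) * b ^ 2 + x ^ 2) * y ^ 2) - x ^ 2 * (b + 1) ^ 2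
          = κ * (((b : ℤ) + 1) ^ 2 - y ^ 2) - a * y ^ 2 * (2 * b + 1 - y ^ 2) := by
        rw [hx2]; ring
      linarith
  · obtain ⟨κ, hκ⟩ : ∃ κ : ℤ, κ = x ^ 2 - a * y ^ 2 := ⟨_, rfl⟩
    have hx2 : x ^ 2 = a * y ^ 2 + κ := by linarith
    have hκ0 : 1 ≤ κ := by linarith
    have hD2 : 5 * (b : ℤ) * κ ^ 2 < 16 * (a * y ^ 2) + 8 * κ := by
      rw [hx2] at hD'
      have e : (a * y ^ 2 + κ - a * y ^ 2) ^ 2 = κ ^ 2 := by ring
      rw [e] at hD'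
      linarith
    rcases eq_or_lt_of_le hκ0 with h1 | h2
    · rw [← h1] at hx2 hD2
      exact unit_pos ha hb hx hy hx2 hW (by linarith) hm hm1 hm2
    · have hl := large_pos (b := b) (W := y ^ 2) (A := a * y ^ 2) (κ := κ) hb' (by linarith) hy1 hW
        hA5 (by linarith)
      refine hit_pos' hx hy (by linarith) ?_
      have e : (x ^ 2 * ((b : ℤ) ^ 2 + y ^ 2)) - a * (b + 1) ^ 2 * y ^ 2
          = κ * ((b : ℤ) ^ 2 + y ^ 2) - a * y ^ 2 * (2 * b + 1 - y ^ 2) := by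
        rw [hx2]; ring
      linarith

/-- for `b ≤ 22` there is twice or three times a square strictly between the squares -/
lemma small_b {b : ℕ} (hb0 : 1 ≤ b) (hb : b ≤ 22) :
    ∃ d y : ℕ, 0 < d ∧ d ≤ 3 ∧ b ^ 2 < d * y ^ 2 ∧ d * y ^ 2 < (b + 1) ^ 2 := by
  have key : ∀ b ∈ Finset.Icc 1 22, ∃ d ∈ Finset.Icc 1 3, ∃ y ∈ Finset.Icc 1 22,
      b ^ 2 < d * y ^ 2 ∧ d * y ^ 2 < (b + 1) ^ 2 := by decide
  obtain ⟨d, hd, y, -, h1, h2⟩ := key b (Finset.mem_Icc.2 ⟨hb0, hb⟩)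
  rw [Finset.mem_Icc] at hd
  exact ⟨d, y, by omega, hd.2, h1, h2⟩

lemma hit_ge_five {a b : ℕ} (ha : 5 ≤ a) (hsq : ¬ IsSquare a) (hb : 1 ≤ b) : Hit a b := by
  rcases le_or_gt b 22 with h | h
  · obtain ⟨d, y, hd, hd3, h1, h2⟩ := small_b hb h
    exact hit_small hd (by omega) h1 h2
  · exact hit_large ha hsq (by omega)

/-- For every non-square `a` the windows are hit, except possibly when `a = 2` and
`2 (2b+1)^2 - 1` is a square. -/
theorem hit_all {a b : ℕ} (hsq : ¬ IsSquare a) (hb : 1 ≤ b)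
    (hex : a = 2 → ¬ ∃ c : ℕ, c ^ 2 + 1 = 2 * (2 * b + 1) ^ 2) : Hit a b := by
  rcases le_or_gt 5 a with h5 | h5
  · exact hit_ge_five h5 hsq hb
  · interval_cases a
    · exact absurd ⟨0, rfl⟩ hsq
    · exact absurd ⟨1, rfl⟩ hsq
    · exact hit_two hb (hex rfl)
    · exact hit_three hb
    · exact absurd ⟨2, rfl⟩ hsq

/-- From a hit to the two numbers `r < s`. -/
lemma good_of_hit {a b : ℕ} (hsq : ¬ IsSquare a) (h : Hit a b) :
    ∃ r s : ℕ, a * b ^ 2 < r ∧ r < s ∧ s < a * (b + 1) ^ 2 ∧ IsSquare (a * b ^ 2 * r * s) := by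
  obtain ⟨d, x, y, h1, h2, h3, h4⟩ := h
  have ha : 0 < a := by
    rcases Nat.eq_zero_or_pos a with h | h
    · exact absurd ⟨0, by simp [h]⟩ hsq
    · exact h
  have h5 : a * b ^ 2 < a * (d * y ^ 2) := Nat.mul_lt_mul_of_pos_left h1 ha
  have h6 : a * (d * y ^ 2) < a * (b + 1) ^ 2 := Nat.mul_lt_mul_of_pos_left h2 ha
  have hne : d * x ^ 2 ≠ a * (d * y ^ 2) := by
    intro he
    have hd : 0 < d := by
      rcases Nat.eq_zero_or_pos d with h | h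
      · subst h; simp at h1
      · exact h
    have h7 : x ^ 2 = a * y ^ 2 := by
      have : d * x ^ 2 = d * (a * y ^ 2) := by rw [he]; ring
      exact Nat.eq_of_mul_eq_mul_left hd this
    have hy : 0 < y := by
      rcases Nat.eq_zero_or_pos y with h | h
      · subst h; simp at h1
      · exact h
    have h8 : y ∣ x := (Nat.pow_dvd_pow_iff (by norm_num : (2 : ℕ) ≠ 0)).1 ⟨a, by rw [h7]; ring⟩
    obtain ⟨c, rfl⟩ := h8
    apply hsq
    refine ⟨c, ?_⟩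
    have : y ^ 2 * a = y ^ 2 * (c * c) := by nlinarith
    exact Nat.eq_of_mul_eq_mul_left (by positivity) this
  rcases lt_or_gt_of_ne hne with h | h
  · exact ⟨d * x ^ 2, a * (d * y ^ 2), h3, h, h6, ⟨a * b * d * x * y, by ring⟩⟩
  · exact ⟨a * (d * y ^ 2), d * x ^ 2, h5, h, h4, ⟨a * b * d * x * y, by ring⟩⟩

/-- Selfridge's statement holds for every non-square `n`, except possibly for the `n = 2 b^2` for
which `2 (2b+1)^2 - 1` is a square, that is `n = 8, 392, 14112, 484128, ...`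
(`2b+1` a Pell number of odd index). -/
theorem result :
    ∀ n : ℕ, ¬ IsSquare n →
      (∀ b : ℕ, n = 2 * b ^ 2 → ¬ IsSquare (2 * (2 * b + 1) ^ 2 - 1)) →
      ∀ t : ℕ, n < t → IsSquare (n * t) →
        (∀ u : ℕ, n < u → u < t → ¬ IsSquare (n * u)) →
        ∃ r s : ℕ, n < r ∧ r < s ∧ s < t ∧ IsSquare (n * r * s) := by
  intro n hn hexc t hnt hsqt _
  obtain ⟨a, b, hab, hasf⟩ := Nat.sq_mul_squarefree n
  have hn0 : n ≠ 0 := by rintro rfl; exact hn ⟨0, rfl⟩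
  have hb : 0 < b := by
    rcases Nat.eq_zero_or_pos b with h | h
    · subst h; simp at hab; exact absurd hab.symm hn0
    · exact h
  have ha0 : 0 < a := by
    rcases Nat.eq_zero_or_pos a with h | h
    · subst h; simp at hab; exact absurd hab.symm hn0
    · exact h
  have hn' : n = a * b ^ 2 := by rw [← hab]; ring
  have hasq : ¬ IsSquare a := by
    rintro ⟨c, rfl⟩
    exact hn ⟨b * c, by rw [hn']; ring⟩
  have hhit : Hit a b := by
    refine hit_all hasq hb ?_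
    rintro rfl ⟨c, hc⟩
    refine hexc b hn' ⟨c, ?_⟩
    rw [← hc]
    have : c ^ 2 + 1 - 1 = c ^ 2 := by omega
    rw [this]; ring
  obtain ⟨r, s, h1, h2, h3, h4⟩ := good_of_hit hasq hhit
  refine ⟨r, s, by rw [hn']; exact h1, h2, ?_, by rw [hn']; exact h4⟩
  refine lt_of_lt_of_le h3 ?_
  -- `t = a e^2` with `e > b`
  obtain ⟨c, hc⟩ := hsqt
  have hb2 : b ∣ c := by
    have : b ^ 2 ∣ c ^ 2 := ⟨a * t, by rw [sq c, ← hc, hn']; ring⟩
    exact (Nat.pow_dvd_pow_iff (by norm_num : (2 : ℕ) ≠ 0)).1 this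
  obtain ⟨f, rfl⟩ := hb2
  have hf : a * t = f ^ 2 := by
    have : b ^ 2 * (a * t) = b ^ 2 * f ^ 2 := by
      calc b ^ 2 * (a * t) = n * t := by rw [hn']; ring
        _ = _ := by rw [hc]; ring
    exact Nat.eq_of_mul_eq_mul_left (by positivity) this
  have haf : a ∣ f := by
    have : a ∣ f ^ 2 := ⟨t, hf.symm⟩
    exact (hasf.dvd_pow_iff_dvd (by norm_num)).1 this
  obtain ⟨e, rfl⟩ := haf
  have ht : t = a * e ^ 2 := by
    have : a * t = a * (a * e ^ 2) := by rw [hf]; ring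
    exact Nat.eq_of_mul_eq_mul_left ha0 this
  have he : b < e := by
    by_contra hcon
    push Not at hcon
    have : a * e ^ 2 ≤ a * b ^ 2 := Nat.mul_le_mul_left _ (Nat.pow_le_pow_left hcon 2)
    rw [ht, hn'] at hnt
    omega
  rw [ht]
  exact Nat.mul_le_mul_left _ (Nat.pow_le_pow_left he 2)

end Pool.Agent.Results.MP_5c5acc_nt.Lacunary
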